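import Pool.Agent.X328.TAU.Stm
import Pool.Agent.X115.GN.CHI

/-!
Part CHI of project TAU: functoriality, and the roots of `chi2` are the multipliers
(adapted from `Pool.Agent.X115.GN.CHI`).
-/

set_option autoImplicit false

namespace Pool.Agent.X200.TAU

open Finset Polynomial
open Pool.Agent.X328.GN (Ix nu de hm it wrA S_IT)
open Pool.Agent.X328.TAU (P2 Q2 Ph2 chi2 ml2)
open Pool.Agent.X115.GN (nu_map de_map it_map wrA_map mapC nu_monic de_deg)

universe u v

section

variable {A A' : Type*} [CommRing A] [CommRing A'] (φ : A →+* A') (d : ℕ)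

lemma P2_map (t : Ix d → A) : (P2 d t).map φ = P2 d (fun i => φ (t i)) := by
  rw [P2, (it_map φ d _ _ 2).1, nu_map, de_map, P2]

lemma Q2_map (t : Ix d → A) : (Q2 d t).map φ = Q2 d (fun i => φ (t i)) := by
  rw [Q2, (it_map φ d _ _ 2).2, nu_map, de_map, Q2]

lemma Ph2_map (t : Ix d → A) : (Ph2 d t).map φ = Ph2 d (fun i => φ (t i)) := by
  rw [Ph2, Polynomial.map_sub, Polynomial.map_mul, P2_map, Q2_map, map_X, Ph2]

lemma chi2_map (t : Ix d → A) : (chi2 d t).map φ = chi2 d (fun i => φ (t i)) := by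
  rw [chi2, chi2, ← P2_map φ, ← Q2_map φ, ← Ph2_map φ, ← wrA_map, ← coe_mapRingHom,
    ← resultant_map_map, mapC]
  congr 1
  rw [Polynomial.map_sub, Polynomial.map_mul, Polynomial.map_pow, mapC, mapC, map_C]
  simp

end

theorem t_CHI (hIT : S_IT.{u}) : Pool.Agent.X328.TAU.S_CHI.{u, v} := by
  refine ⟨fun A A' _ _ φ d t => ⟨P2_map φ d t, Q2_map φ d t, Ph2_map φ d t, chi2_map φ d t⟩, ?_⟩
  intro K _ _ d hd t hco hdeg hspl
  obtain ⟨hc, h1, h2, h3, -⟩ := hIT K d hd (nu d t) (de d t) hco (nu_monic d hd t).1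
    (nu_monic d hd t).2 (de_deg d hd t) 2
  have hP : (P2 d t).natDegree = d ^ 2 := h2
  have hQ : (Q2 d t).natDegree < d ^ 2 := h3
  have hPQ : IsCoprime (P2 d t) (Q2 d t) := hc
  have hinj : Function.Injective (C : K →+* K[X]) := C_injective
  set F : K[X][X] := (Ph2 d t).map C with hF
  set G : K[X][X] := (C X * ((Q2 d t).map C) ^ 2 - (wrA (P2 d t) (Q2 d t)).map C) with hG
  have hFd : F.natDegree = d ^ 2 := by
    rw [hF, natDegree_map_eq_of_injective hinj, hdeg]
  have hFs : F.Splits := hspl.map _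
  have hGd : G.natDegree ≤ 2 * d ^ 2 := by
    refine (natDegree_sub_le _ _).trans (max_le ?_ ?_)
    · refine (natDegree_C_mul_le _ _).trans ?_
      refine natDegree_pow_le.trans ?_
      refine Nat.mul_le_mul_left 2 ?_
      exact natDegree_map_le.trans hQ.le
    · refine natDegree_map_le.trans ?_
      rw [wrA]
      refine (natDegree_sub_le _ _).trans (max_le ?_ ?_)
      · refine natDegree_mul_le.trans ?_
        have := (natDegree_derivative_le (P2 d t)).trans (Nat.sub_le _ _)
        omega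
      · refine natDegree_mul_le.trans ?_
        have := (natDegree_derivative_le (Q2 d t)).trans (Nat.sub_le _ _)
        omega
  have hroots : F.roots = (Ph2 d t).roots.map C := by
    rw [hF]
    exact (hspl.roots_map C)
  have hQ0 : ∀ x ∈ (Ph2 d t).roots, (Q2 d t).eval x ≠ 0 := by
    intro x hx h0
    have hr : (Ph2 d t).eval x = 0 := (mem_roots'.mp hx).2
    rw [Ph2, eval_sub, eval_mul, h0, mul_zero, sub_zero] at hr
    obtain ⟨a, b, hab⟩ := hPQ
    have := congrArg (eval x) hab
    rw [eval_add, eval_mul, eval_mul, hr, h0, mul_zero, mul_zero, add_zero, eval_one] at this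
    exact zero_ne_one this
  have hPh0 : Ph2 d t ≠ 0 := by
    intro h0
    rw [h0, natDegree_zero] at hdeg
    have : 0 < d ^ 2 := by positivity
    omega
  have hev : ∀ x ∈ (Ph2 d t).roots, G.eval (C x) =
      C ((Q2 d t).eval x ^ 2) * (X - C (ml2 d t x)) := by
    intro x hx
    have h0 := hQ0 x hx
    rw [hG, eval_sub, eval_mul, eval_pow, eval_C, eval_map, eval₂_at_apply, eval_map,
      eval₂_at_apply, ml2, mul_sub, ← C_mul, mul_div_cancel₀ _ (pow_ne_zero 2 h0), C_pow]
    ring
  refine ⟨(Ph2 d t).leadingCoeff ^ (2 * d ^ 2) *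
    ((Ph2 d t).roots.map fun x => (Q2 d t).eval x ^ 2).prod, ?_, ?_⟩
  · refine mul_ne_zero (pow_ne_zero _ (leadingCoeff_ne_zero.mpr hPh0)) ?_
    refine Multiset.prod_ne_zero fun h0 => ?_
    rw [Multiset.mem_map] at h0
    obtain ⟨x, hx, hx0⟩ := h0
    exact pow_ne_zero 2 (hQ0 x hx) hx0
  · have key := resultant_eq_prod_eval F G (2 * d ^ 2) hGd hFs
    rw [hFd] at key
    rw [chi2]
    refine key.trans ?_
    rw [hroots, Multiset.map_map, hF, leadingCoeff_map_of_injective hinj]
    have e : Multiset.map ((fun x => eval x G) ∘ ⇑(C : K →+* K[X])) (Ph2 d t).roots =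
        (Ph2 d t).roots.map fun x => C ((Q2 d t).eval x ^ 2) * (X - C (ml2 d t x)) :=
      Multiset.map_congr rfl fun x hx => hev x hx
    rw [e, Multiset.prod_map_mul, C_mul, C_pow, map_multiset_prod, Multiset.map_map, mul_assoc]
    rfl

end Pool.Agent.X200.TAU
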